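import Pool.Agent.EK.Mertens

/-!
# The number of smooth numbers, a crude bound
-/

set_option autoImplicit false

namespace Pool.Agent.SmC

open Finset

theorem prod_Icc_id (X : ℕ) : ∏ m ∈ Finset.Icc 1 X, m = X.factorial := by
  induction X with
  | zero => simp
  | succ n ih => rw [Finset.prod_Icc_succ_top (by omega), ih, Nat.factorial_succ, mul_comm]

theorem val_fact_le {p : ℕ} (hp : p.Prime) (X : ℕ) :
    ((X.factorial).factorization p : ℝ) ≤ X / ((p : ℝ) - 1) := by
  have : Fact p.Prime := ⟨hp⟩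
  have h := sub_one_mul_padicValNat_factorial (p := p) X
  have h1 : (p - 1) * padicValNat p X.factorial ≤ X := by
    rw [h]
    exact Nat.sub_le _ _
  have hp1 : (0 : ℝ) < (p : ℝ) - 1 := by
    have : (1 : ℝ) < p := by exact_mod_cast hp.one_lt
    linarith
  rw [Nat.factorization_def _ hp, le_div_iff₀ hp1]
  have h2 : ((p - 1 : ℕ) : ℝ) = (p : ℝ) - 1 := by
    rw [Nat.cast_sub hp.one_le, Nat.cast_one]
  have h3 : (((p - 1) * padicValNat p X.factorial : ℕ) : ℝ) ≤ X := by exact_mod_cast h1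
  rw [Nat.cast_mul, h2] at h3
  linarith

theorem sum_log_sub (Y : ℕ) (hY : 2 ≤ Y) :
    ∑ p ∈ (Finset.range (Y + 1)).filter Nat.Prime, Real.log p / ((p : ℝ) - 1) ≤
      6 * Real.log Y := by
  have h1 := EK.mertens_first_upper Y (by omega)
  have h2 : ∑ p ∈ (Finset.range (Y + 1)).filter Nat.Prime, Real.log p / ((p : ℝ) - 1) ≤
      ∑ p ∈ (Finset.range (Y + 1)).filter Nat.Prime, 2 * (Real.log p / p) := by
    refine Finset.sum_le_sum fun p hp => ?_
    rw [Finset.mem_filter] at hp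
    have hp2 : (2 : ℝ) ≤ p := by exact_mod_cast hp.2.two_le
    have hl : 0 ≤ Real.log p := Real.log_nonneg (by linarith)
    have e : 2 * (Real.log p / p) = Real.log p / (p / 2) := by field_simp
    rw [e]
    exact div_le_div_of_nonneg_left hl (by linarith) (by linarith)
  rw [← Finset.mul_sum] at h2
  have h3 : Real.log 4 ≤ 2 * Real.log Y := by
    have e : (4 : ℝ) = 2 ^ 2 := by norm_num
    rw [e, Real.log_pow]
    push_cast
    have : Real.log 2 ≤ Real.log Y := Real.log_le_log (by norm_num) (by exact_mod_cast hY)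
    linarith
  linarith

theorem log_sum_le {X Y : ℕ} (hY : 2 ≤ Y) {S : Finset ℕ} (hS : S ⊆ Finset.Icc 1 X)
    (hsm : ∀ m ∈ S, ∀ p : ℕ, p.Prime → p ∣ m → p ≤ Y) :
    ∑ m ∈ S, Real.log m ≤ 6 * X * Real.log Y := by
  obtain ⟨N, hN⟩ : ∃ N : ℕ, N = ∏ m ∈ S, m := ⟨_, rfl⟩
  have hm0 : ∀ m ∈ S, m ≠ 0 := by
    intro m hm
    have := (Finset.mem_Icc.1 (hS hm)).1
    omega
  have hN0 : N ≠ 0 := by
    rw [hN]
    exact Finset.prod_ne_zero_iff.2 hm0
  have hdvd : N ∣ X.factorial := by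
    rw [hN, ← prod_Icc_id X]
    exact Finset.prod_dvd_prod_of_subset S (Finset.Icc 1 X) (fun m => m) hS
  have hlog : ∑ m ∈ S, Real.log m = Real.log (N : ℝ) := by
    rw [hN]
    push_cast
    rw [Real.log_prod]
    intro m hm
    exact_mod_cast hm0 m hm
  rw [hlog, Real.log_nat_eq_sum_factorization]
  have hsub : N.factorization.support ⊆ (Finset.range (Y + 1)).filter Nat.Prime := by
    intro p hp
    have hp' : p ∈ N.primeFactors := hp
    have hpp := Nat.prime_of_mem_primeFactors hp'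
    have hpd := Nat.dvd_of_mem_primeFactors hp'
    rw [hN, hpp.prime.dvd_finsetProd_iff] at hpd
    obtain ⟨m, hm, hpm⟩ := hpd
    rw [Finset.mem_filter, Finset.mem_range]
    exact ⟨Nat.lt_succ_of_le (hsm m hm p hpp hpm), hpp⟩
  rw [Finsupp.sum_of_support_subset _ hsub _ (by simp)]
  calc ∑ p ∈ (Finset.range (Y + 1)).filter Nat.Prime, (N.factorization p : ℝ) * Real.log p
      ≤ ∑ p ∈ (Finset.range (Y + 1)).filter Nat.Prime, X * (Real.log p / ((p : ℝ) - 1)) := by
        refine Finset.sum_le_sum fun p hp => ?_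
        rw [Finset.mem_filter] at hp
        have hl : 0 ≤ Real.log p := Real.log_nonneg (by exact_mod_cast hp.2.one_le)
        have h1 : N.factorization p ≤ X.factorial.factorization p :=
          (Nat.factorization_le_iff_dvd hN0 (Nat.factorial_ne_zero X)).2 hdvd p
        have h2 : (N.factorization p : ℝ) ≤ X / ((p : ℝ) - 1) :=
          le_trans (by exact_mod_cast h1) (val_fact_le hp.2 X)
        calc (N.factorization p : ℝ) * Real.log p ≤ X / ((p : ℝ) - 1) * Real.log p :=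
              mul_le_mul_of_nonneg_right h2 hl
          _ = X * (Real.log p / ((p : ℝ) - 1)) := by ring
    _ = X * ∑ p ∈ (Finset.range (Y + 1)).filter Nat.Prime, Real.log p / ((p : ℝ) - 1) := by
        rw [Finset.mul_sum]
    _ ≤ X * (6 * Real.log Y) := mul_le_mul_of_nonneg_left (sum_log_sub Y hY) (Nat.cast_nonneg X)
    _ = _ := by ring

/-- Any set of `Y`-smooth numbers up to `X`. -/
theorem smooth_card {X Y : ℕ} (hY : 2 ≤ Y) (hX : 2 ≤ X) {S : Finset ℕ} (hS : S ⊆ Finset.Icc 1 X)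
    (hsm : ∀ m ∈ S, ∀ p : ℕ, p.Prime → p ∣ m → p ≤ Y) :
    (S.card : ℝ) ≤ Real.sqrt X + 12 * X * Real.log Y / Real.log X := by
  classical
  have hX' : (2 : ℝ) ≤ X := by exact_mod_cast hX
  have hlX : 0 < Real.log X := Real.log_pos (by linarith)
  have hcard := Finset.card_filter_add_card_filter_not (s := S) (fun m : ℕ => (m : ℝ) ≤ √X)
  have h1 : ((S.filter fun m : ℕ => (m : ℝ) ≤ √X).card : ℝ) ≤ √X := by
    have h2 : (S.filter fun m : ℕ => (m : ℝ) ≤ √X) ⊆ Finset.Icc 1 ⌊√(X : ℝ)⌋₊ := by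
      intro m hm
      rw [Finset.mem_filter] at hm
      rw [Finset.mem_Icc]
      exact ⟨(Finset.mem_Icc.1 (hS hm.1)).1, Nat.le_floor hm.2⟩
    have h3 := Finset.card_le_card h2
    rw [Nat.card_Icc, Nat.add_sub_cancel] at h3
    exact le_trans (by exact_mod_cast h3) (Nat.floor_le (Real.sqrt_nonneg _))
  have h2 : ((S.filter fun m : ℕ => ¬ (m : ℝ) ≤ √X).card : ℝ) * (Real.log X / 2) ≤
      6 * X * Real.log Y := by
    refine le_trans ?_ (log_sum_le (X := X) hY (S := S.filter fun m : ℕ => ¬ (m : ℝ) ≤ √X)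
      ((Finset.filter_subset _ _).trans hS) fun m hm => hsm m (Finset.mem_filter.1 hm).1)
    rw [← nsmul_eq_mul]
    refine Finset.card_nsmul_le_sum _ _ _ fun m hm => ?_
    rw [Finset.mem_filter, not_le] at hm
    have h3 : Real.log (√(X : ℝ)) = Real.log X / 2 := Real.log_sqrt (by linarith)
    rw [← h3]
    exact Real.log_le_log (Real.sqrt_pos.2 (by linarith)) hm.2.le
  have h3 : ((S.filter fun m : ℕ => ¬ (m : ℝ) ≤ √X).card : ℝ) ≤
      12 * X * Real.log Y / Real.log X := by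
    rw [le_div_iff₀ hlX]
    linarith
  have h4 : (S.card : ℝ) = ((S.filter fun m : ℕ => (m : ℝ) ≤ √X).card : ℝ) +
      ((S.filter fun m : ℕ => ¬ (m : ℝ) ≤ √X).card : ℝ) := by
    rw [← Nat.cast_add, hcard]
  rw [h4]
  linarith

open Classical in
theorem smooth_count : ∃ C : ℝ, 0 < C ∧ ∀ X Y : ℕ, 2 ≤ Y → 2 ≤ X →
    (((Finset.Icc 1 X).filter (fun m => ∀ p : ℕ, p.Prime → p ∣ m → p ≤ Y)).card : ℝ) ≤
      Real.sqrt X + C * X * Real.log Y / Real.log X :=
  ⟨12, by norm_num, fun X Y hY hX => smooth_card hY hX (Finset.filter_subset _ _)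
    fun m hm => (Finset.mem_filter.1 hm).2⟩

end Pool.Agent.SmC
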