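import Pool.Agent.MRZ.PVb

/-!
# The number of smooth numbers, Rankin's bound
-/

set_option autoImplicit false

namespace Pool.Agent.SmC

open Finset

theorem inv_one_sub_le {x : ℝ} (_ : 0 ≤ x) (h1 : x ≤ 2 / 3) :
    (1 - x)⁻¹ ≤ Real.exp (x + 3 * x ^ 2) := by
  have hpos : 0 < 1 - x := by linarith
  have h2 : (1 - x)⁻¹ ≤ 1 + x + 3 * x ^ 2 := by
    rw [inv_le_iff_one_le_mul₀ hpos]
    nlinarith [sq_nonneg x, mul_nonneg (sq_nonneg x) (by linarith : (0 : ℝ) ≤ 2 / 3 - x)]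
  have h3 := Real.add_one_le_exp (x + 3 * x ^ 2)
  linarith

theorem exp_le_lin {t : ℝ} (h0 : 0 ≤ t) (h1 : t ≤ 1) : Real.exp t ≤ 1 + 2 * t := by
  have h := Real.abs_exp_sub_one_sub_id_le (x := t) (by rw [abs_le]; constructor <;> linarith)
  have h2 := (abs_le.1 h).2
  nlinarith

/-- The monoid homomorphism `m ↦ m ^ (b - 1)`. -/
noncomputable def rpowHom (a : ℝ) : ℕ →* ℝ where
  toFun m := (m : ℝ) ^ a
  map_one' := by simp
  map_mul' m n := by
    push_cast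
    exact Real.mul_rpow (Nat.cast_nonneg m) (Nat.cast_nonneg n)

theorem sum_le_prod {Y : ℕ} {b : ℝ} (hb : b < 1) {S : Finset ℕ}
    (hsm : ∀ m ∈ S, ∀ p : ℕ, p.Prime → p ∣ m → p ≤ Y) :
    ∑ m ∈ S, (m : ℝ) ^ (b - 1) ≤
      ∏ p ∈ (Finset.range (Y + 1)).filter Nat.Prime, (1 - (p : ℝ) ^ (b - 1))⁻¹ := by
  have h := (EulerProduct.summable_and_hasSum_smoothNumbers_prod_primesBelow_geometric
    (f := rpowHom (b - 1)) (fun {p} hp => by
      have hp1 : (1 : ℝ) < p := by exact_mod_cast hp.one_lt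
      have e : rpowHom (b - 1) p = (p : ℝ) ^ (b - 1) := rfl
      rw [e, Real.norm_of_nonneg (Real.rpow_nonneg (by linarith) _)]
      exact Real.rpow_lt_one_of_one_lt_of_neg hp1 (by linarith)) (Y + 1)).2
  have hmem : ∀ m ∈ S, m ∈ Nat.smoothNumbers (Y + 1) := by
    intro m hm
    rw [Nat.mem_smoothNumbers']
    intro p hp hpm
    exact Nat.lt_succ_of_le (hsm m hm p hp hpm)
  classical
  have h1 : ∑ x ∈ S.subtype fun m => m ∈ Nat.smoothNumbers (Y + 1), rpowHom (b - 1) x ≤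
      ∏ p ∈ (Finset.range (Y + 1)).filter Nat.Prime, (1 - (p : ℝ) ^ (b - 1))⁻¹ :=
    sum_le_hasSum (S.subtype fun m => m ∈ Nat.smoothNumbers (Y + 1))
      (fun i _ => Real.rpow_nonneg (Nat.cast_nonneg (i : ℕ)) (b - 1)) h
  have h2 : ∑ x ∈ S.subtype fun m => m ∈ Nat.smoothNumbers (Y + 1), rpowHom (b - 1) x =
      ∑ m ∈ S, (m : ℝ) ^ (b - 1) :=
    Finset.sum_subtype_of_mem (fun m : ℕ => (m : ℝ) ^ (b - 1)) hmem
  rw [h2] at h1
  exact h1

theorem smooth_rankin : ∃ C : ℝ, 0 < C ∧ ∀ X Y : ℕ, 16 ≤ Y → Y ≤ X → ∀ S : Finset ℕ,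
    S ⊆ Finset.Icc 1 X → (∀ m ∈ S, ∀ p, p.Prime → p ∣ m → p ≤ Y) →
    (S.card : ℝ) ≤ C * X * Real.log Y * Real.exp (-(Real.log X / Real.log Y)) := by
  obtain ⟨C, hC0, hC⟩ := Pool.MRZ.PVb.mertens_nat
  have hsum : Summable fun n : ℕ => (n : ℝ) ^ (-(5 / 4) : ℝ) :=
    Real.summable_nat_rpow.2 (by norm_num)
  obtain ⟨Z, hZ⟩ : ∃ Z : ℝ, Z = ∑' n : ℕ, (n : ℝ) ^ (-(5 / 4) : ℝ) := ⟨_, rfl⟩
  refine ⟨Real.exp (C + 4 + 3 * Z), Real.exp_pos _, fun X Y hY hYX S hS hsm => ?_⟩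
  have hY0 : (0 : ℝ) < Y := by exact_mod_cast (show 0 < Y by omega)
  have hX0 : (0 : ℝ) < X := by exact_mod_cast (show 0 < X by omega)
  have hl2 := Real.log_two_gt_d9
  have hL : 8 / 3 < Real.log Y := by
    have h1 : Real.log 16 ≤ Real.log Y := Real.log_le_log (by norm_num) (by exact_mod_cast hY)
    have h2 : Real.log 16 = 4 * Real.log 2 := by
      rw [show (16 : ℝ) = 2 ^ 4 by norm_num, Real.log_pow]
      norm_num
    linarith
  have hL0 : 0 < Real.log Y := by linarith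
  obtain ⟨b, hb⟩ : ∃ b : ℝ, b = 1 / Real.log Y := ⟨_, rfl⟩
  have hbL : b * Real.log Y = 1 := by rw [hb]; field_simp
  have hb0 : 0 < b := by rw [hb]; positivity
  have hb1 : b ≤ 3 / 8 := by
    by_contra hcon
    push Not at hcon
    nlinarith
  have hS0 : ∀ m ∈ S, m ≠ 0 := fun m hm => by
    have := (Finset.mem_Icc.1 (hS hm)).1
    omega
  -- Rankin
  have h1 : (S.card : ℝ) ≤ (X : ℝ) ^ (1 - b) * ∑ m ∈ S, (m : ℝ) ^ (b - 1) := by
    rw [Finset.mul_sum, Finset.card_eq_sum_ones, Nat.cast_sum]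
    refine Finset.sum_le_sum fun m hm => ?_
    have hm1 : (0 : ℝ) < m := by exact_mod_cast Nat.pos_of_ne_zero (hS0 m hm)
    have hmX : (m : ℝ) ≤ X := by exact_mod_cast (Finset.mem_Icc.1 (hS hm)).2
    have e : (m : ℝ) ^ (b - 1) = ((m : ℝ) ^ (1 - b))⁻¹ := by
      rw [← Real.rpow_neg hm1.le]
      congr 1
      ring
    rw [e, ← div_eq_mul_inv, Nat.cast_one, one_le_div (Real.rpow_pos_of_pos hm1 _)]
    exact Real.rpow_le_rpow hm1.le hmX (by linarith)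
  have h2 := sum_le_prod (by linarith : b < 1) hsm
  -- the product
  have hfac : ∀ p ∈ (Finset.range (Y + 1)).filter Nat.Prime,
      (0 ≤ (p : ℝ) ^ (b - 1) ∧ (p : ℝ) ^ (b - 1) ≤ 2 / 3) ∧
      (p : ℝ) ^ (b - 1) ≤ 1 / p + 2 * b * (Real.log p / p) ∧
      ((p : ℝ) ^ (b - 1)) ^ 2 ≤ (p : ℝ) ^ (-(5 / 4) : ℝ) := by
    intro p hp
    rw [Finset.mem_filter, Finset.mem_range] at hp
    have hp2 : (2 : ℝ) ≤ p := by exact_mod_cast hp.2.two_le
    have hp0 : (0 : ℝ) < p := by linarith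
    have hpY : (p : ℝ) ≤ Y := by exact_mod_cast Nat.lt_succ_iff.1 hp.1
    have hlp : 0 ≤ Real.log p := Real.log_nonneg (by linarith)
    refine ⟨⟨Real.rpow_nonneg hp0.le _, ?_⟩, ?_, ?_⟩
    · have g1 : (p : ℝ) ^ (b - 1) ≤ (p : ℝ) ^ (-(5 / 8) : ℝ) :=
        Real.rpow_le_rpow_of_exponent_le (by linarith) (by linarith)
      have g2 : (p : ℝ) ^ (-(5 / 8) : ℝ) ≤ (2 : ℝ) ^ (-(5 / 8) : ℝ) :=
        Real.rpow_le_rpow_of_nonpos (by norm_num) hp2 (by norm_num)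
      have g3 : (2 : ℝ) ^ (-(5 / 8) : ℝ) ≤ 2 / 3 := by
        have g4 : ((2 : ℝ) ^ (-(5 / 8) : ℝ)) ^ 8 = 1 / 32 := by
          rw [← Real.rpow_natCast, ← Real.rpow_mul (by norm_num)]
          norm_num
        by_contra hcon
        push Not at hcon
        have g5 := pow_lt_pow_left₀ hcon (by norm_num) (n := 8) (by norm_num)
        rw [g4] at g5
        norm_num at g5
      linarith
    · have g1 : (p : ℝ) ^ (b - 1) = 1 / p * Real.exp (b * Real.log p) := by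
        rw [Real.rpow_sub hp0, Real.rpow_one, Real.rpow_def_of_pos hp0, mul_comm (Real.log (p : ℝ)) b]
        ring
      have g2 : b * Real.log p ≤ 1 := by
        rw [← hbL]
        exact mul_le_mul_of_nonneg_left (Real.log_le_log hp0 hpY) hb0.le
      have g3 := exp_le_lin (mul_nonneg hb0.le hlp) g2
      rw [g1]
      calc 1 / (p : ℝ) * Real.exp (b * Real.log p) ≤ 1 / p * (1 + 2 * (b * Real.log p)) :=
            mul_le_mul_of_nonneg_left g3 (by positivity)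
        _ = 1 / p + 2 * b * (Real.log p / p) := by ring
    · rw [← Real.rpow_natCast, ← Real.rpow_mul hp0.le]
      exact Real.rpow_le_rpow_of_exponent_le (by linarith) (by push_cast; linarith)
  have h3 : ∏ p ∈ (Finset.range (Y + 1)).filter Nat.Prime, (1 - (p : ℝ) ^ (b - 1))⁻¹ ≤
      Real.exp (∑ p ∈ (Finset.range (Y + 1)).filter Nat.Prime,
        ((p : ℝ) ^ (b - 1) + 3 * ((p : ℝ) ^ (b - 1)) ^ 2)) := by
    rw [Real.exp_sum]
    refine Finset.prod_le_prod (fun p hp => ?_) fun p hp => ?_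
    · have := (hfac p hp).1
      exact inv_nonneg.2 (by linarith)
    · exact inv_one_sub_le (hfac p hp).1.1 (hfac p hp).1.2
  have h4 : ∑ p ∈ (Finset.range (Y + 1)).filter Nat.Prime,
      ((p : ℝ) ^ (b - 1) + 3 * ((p : ℝ) ^ (b - 1)) ^ 2) ≤
      ∑ p ∈ (Finset.range (Y + 1)).filter Nat.Prime, (1 : ℝ) / p +
      2 * b * ∑ p ∈ (Finset.range (Y + 1)).filter Nat.Prime, Real.log p / p +
      3 * Z := by
    have k1 : ∑ p ∈ (Finset.range (Y + 1)).filter Nat.Prime, ((p : ℝ) ^ (-(5 / 4) : ℝ)) ≤ Z := by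
      rw [hZ]
      exact hsum.sum_le_tsum _ fun n _ => Real.rpow_nonneg (Nat.cast_nonneg n) _
    have k2 : ∑ p ∈ (Finset.range (Y + 1)).filter Nat.Prime,
        ((p : ℝ) ^ (b - 1) + 3 * ((p : ℝ) ^ (b - 1)) ^ 2) ≤
        ∑ p ∈ (Finset.range (Y + 1)).filter Nat.Prime,
          (((1 : ℝ) / p + 2 * b * (Real.log p / p)) + 3 * (p : ℝ) ^ (-(5 / 4) : ℝ)) := by
      refine Finset.sum_le_sum fun p hp => ?_
      have := hfac p hp
      linarith [this.2.1, this.2.2]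
    have k3 : ∑ p ∈ (Finset.range (Y + 1)).filter Nat.Prime,
          (((1 : ℝ) / p + 2 * b * (Real.log p / p)) + 3 * (p : ℝ) ^ (-(5 / 4) : ℝ)) =
        ∑ p ∈ (Finset.range (Y + 1)).filter Nat.Prime, (1 : ℝ) / p +
        2 * b * ∑ p ∈ (Finset.range (Y + 1)).filter Nat.Prime, Real.log p / p +
        3 * ∑ p ∈ (Finset.range (Y + 1)).filter Nat.Prime, ((p : ℝ) ^ (-(5 / 4) : ℝ)) := by
      rw [Finset.mul_sum, Finset.mul_sum, ← Finset.sum_add_distrib, ← Finset.sum_add_distrib]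
    rw [k3] at k2
    linarith
  have h5 : ∑ p ∈ (Finset.range (Y + 1)).filter Nat.Prime, (1 : ℝ) / p ≤
      Real.log (Real.log Y) + C := by
    have k1 := (abs_le.1 (hC Y (by omega))).2
    have k2 : Pool.MRZ.PVb.S Y = ∑ p ∈ (Finset.range (Y + 1)).filter Nat.Prime, (1 : ℝ) / p := by
      unfold Pool.MRZ.PVb.S
      refine Finset.sum_congr ?_ fun _ _ => rfl
      ext p
      simp only [Finset.mem_filter, Finset.mem_Ioc, Finset.mem_range]
      constructor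
      · rintro ⟨⟨_, h⟩, hp⟩
        exact ⟨by omega, hp⟩
      · rintro ⟨h, hp⟩
        exact ⟨⟨hp.pos, by omega⟩, hp⟩
    linarith
  have h6 := EK.mertens_first_upper Y (by omega)
  have h7 : 2 * b * ∑ p ∈ (Finset.range (Y + 1)).filter Nat.Prime, Real.log p / p ≤ 4 := by
    have k1 : Real.log 4 ≤ Real.log Y :=
      Real.log_le_log (by norm_num) (by exact_mod_cast (show 4 ≤ Y by omega))
    calc 2 * b * ∑ p ∈ (Finset.range (Y + 1)).filter Nat.Prime, Real.log p / p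
        ≤ 2 * b * (2 * Real.log Y) := mul_le_mul_of_nonneg_left (by linarith) (by positivity)
      _ = 4 * (b * Real.log Y) := by ring
      _ = 4 := by rw [hbL, mul_one]
  have h8 : ∏ p ∈ (Finset.range (Y + 1)).filter Nat.Prime, (1 - (p : ℝ) ^ (b - 1))⁻¹ ≤
      Real.exp (C + 4 + 3 * Z) * Real.log Y := by
    refine h3.trans ?_
    have k1 : Real.exp (∑ p ∈ (Finset.range (Y + 1)).filter Nat.Prime,
        ((p : ℝ) ^ (b - 1) + 3 * ((p : ℝ) ^ (b - 1)) ^ 2)) ≤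
        Real.exp ((C + 4 + 3 * Z) + Real.log (Real.log Y)) := Real.exp_le_exp.2 (by linarith)
    rwa [Real.exp_add, Real.exp_log hL0] at k1
  have h9 : (X : ℝ) ^ (1 - b) = X * Real.exp (-(Real.log X / Real.log Y)) := by
    rw [Real.rpow_def_of_pos hX0, show Real.log X * (1 - b) = Real.log X + -(Real.log X / Real.log Y) by
      rw [hb]; ring, Real.exp_add, Real.exp_log hX0]
  calc (S.card : ℝ) ≤ (X : ℝ) ^ (1 - b) * ∑ m ∈ S, (m : ℝ) ^ (b - 1) := h1
    _ ≤ (X : ℝ) ^ (1 - b) * (Real.exp (C + 4 + 3 * Z) * Real.log Y) :=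
        mul_le_mul_of_nonneg_left (h2.trans h8) (Real.rpow_nonneg hX0.le _)
    _ = _ := by rw [h9]; ring

end Pool.Agent.SmC
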